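import Pool.Agent.Helper45.SD.Goals

set_option autoImplicit false

/-!
# Packet AVG of MP_9415b6_co (Q2): the averaged equations
-/

open Finset

namespace Pool.Agent.Helper31.SD

open Pool.Agent.Helper45.SD

/-- sum of the character over the nonzero elements. -/
lemma sum_psi (n : ℕ) [NeZero n] (l : ZMod n) (hl : l ≠ 0) :
    ∑ y ∈ Finset.univ.erase (0 : ZMod n), psi n (l * y) = -1 := by
  have h0 : ∑ y : ZMod n, psi n (l * y) = 0 := by
    have := AddChar.sum_mulShift (R := ZMod n) (R' := ℂ) l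
      (ψ := ZMod.stdAddChar) (ZMod.isPrimitive_stdAddChar n)
    rw [if_neg hl] at this
    simp only [psi]
    refine (Finset.sum_congr rfl fun y _ => by rw [mul_comm]).trans (this.trans (by simp))
  have h1 := Finset.sum_erase_add (Finset.univ : Finset (ZMod n)) (fun y => psi n (l * y))
    (Finset.mem_univ 0)
  have h2 : psi n (l * 0) = 1 := by
    simp [psi]
  simp only [h2] at h1
  rw [h0] at h1
  linear_combination h1

lemma Gd_const (hID : G_ID) (n : ℕ) [NeZero n] (k : ℕ) (x : ZMod n) (hD : Des n k x) :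
    ∃ K : ℂ, ∀ l : ZMod n, l ≠ 0 → Gd n k x l = K := by
  obtain ⟨r, hr⟩ := hD
  obtain ⟨C0, hC⟩ := hID n k x
  have hn : (n : ℂ) ≠ 0 := Nat.cast_ne_zero.2 (NeZero.ne n)
  refine ⟨(C0 - n * r) / n, fun l hl => ?_⟩
  have h := hC l hl
  have e : ∑ y ∈ Finset.univ.erase (0 : ZMod n), (deg n k x y : ℂ) * psi n (l * y) =
      (r : ℂ) * (-1) := by
    rw [← sum_psi n l hl, Finset.mul_sum]
    refine Finset.sum_congr rfl fun y hy => ?_
    rw [hr y (Finset.ne_of_mem_erase hy)]
  rw [e] at h
  rw [eq_div_iff hn]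
  linear_combination -h

lemma Gd_formula (hEV : G_EV) (n : ℕ) [NeZero n] (k : ℕ) (x l : ZMod n) :
    Gd n k x l = (-1) ^ (k - 1) * ∑ a : ZMod n, psi n (-(a * x)) * ∑ j ∈ Finset.Icc 1 k,
      if a * (j : ZMod n) + l = 0 then
        ((ep (n / addOrderOf a) ((k - j) / addOrderOf a) : ℤ) : ℂ) else 0 := by
  unfold Gd
  rw [Finset.mul_sum]
  refine Finset.sum_congr rfl fun a _ => ?_
  rw [mul_left_comm]
  congr 1
  rw [Finset.mul_sum]
  refine Finset.sum_congr rfl fun j hj => ?_
  rw [Finset.mem_Icc] at hj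
  split_ifs with h
  · rw [hEV n (k - j) a, ← mul_assoc, ← pow_add]
    congr 2
    omega
  · simp

/-- number of elements of order `u`. -/
lemma card_ord (n : ℕ) [NeZero n] (u : ℕ) (hu : u ∣ n) :
    ((Finset.univ : Finset (ZMod n)).filter (fun l => addOrderOf l = u)).card =
      Nat.totient u := by
  have := IsAddCyclic.card_addOrderOf_eq_totient (α := ZMod n) (d := u)
    (by rw [ZMod.card]; exact hu)
  rw [← this]

lemma ord_mul (n : ℕ) [NeZero n] (a : ZMod n) (j : ℕ) :
    addOrderOf (a * (j : ZMod n)) = addOrderOf a / Nat.gcd (addOrderOf a) j := by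
  rw [mul_comm, ← nsmul_eq_mul]
  exact addOrderOf_nsmul a

lemma key (hEV : G_EV) (hRAM : G_RAM) (n : ℕ) [NeZero n] (k : ℕ) (x : ZMod n) (K : ℂ)
    (hK : ∀ l : ZMod n, l ≠ 0 → Gd n k x l = K) (u : ℕ) (hu : u ∣ n) (hu1 : 1 < u) :
    (Nat.totient u : ℂ) * K = (-1) ^ (k - 1) *
      ((∑ s ∈ n.divisors, rg (Nat.gcd x.val n) s * Bs n k s u : ℤ) : ℂ) := by
  have h1 : ∑ l ∈ (Finset.univ : Finset (ZMod n)).filter (fun l => addOrderOf l = u),
      Gd n k x l = (Nat.totient u : ℂ) * K := by
    rw [Finset.sum_congr rfl (fun l hl => hK l ?_), Finset.sum_const, card_ord n u hu,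
      nsmul_eq_mul]
    rintro rfl
    rw [Finset.mem_filter] at hl
    have := hl.2
    rw [addOrderOf_zero] at this
    omega
  rw [← h1]
  simp only [Gd_formula hEV]
  rw [← Finset.mul_sum, Finset.sum_comm]
  congr 1
  have h2 : ∀ a : ZMod n, ∑ l ∈ (Finset.univ : Finset (ZMod n)).filter
      (fun l => addOrderOf l = u), (psi n (-(a * x)) * ∑ j ∈ Finset.Icc 1 k,
      if a * (j : ZMod n) + l = 0 then
        ((ep (n / addOrderOf a) ((k - j) / addOrderOf a) : ℤ) : ℂ) else 0) =
      psi n (-(a * x)) * ((Bs n k (addOrderOf a) u : ℤ) : ℂ) := by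
    intro a
    rw [← Finset.mul_sum]
    congr 1
    rw [Finset.sum_comm]
    unfold Bs
    push_cast
    refine Finset.sum_congr rfl fun j _ => ?_
    rw [← ord_mul n a j]
    by_cases h : addOrderOf (a * (j : ZMod n)) = u
    · rw [if_pos h]
      rw [Finset.sum_eq_single (-(a * (j : ZMod n)))]
      · rw [if_pos (by ring)]
      · intro b _ hb
        rw [if_neg]
        intro h'
        exact hb (by linear_combination h')
      · intro h'
        exfalso
        apply h'
        rw [Finset.mem_filter]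
        exact ⟨Finset.mem_univ _, by rw [addOrderOf_neg]; exact h⟩
    · rw [if_neg h]
      refine Finset.sum_eq_zero fun l hl => ?_
      rw [Finset.mem_filter] at hl
      rw [if_neg]
      intro h'
      apply h
      have : a * (j : ZMod n) = -l := by linear_combination h'
      rw [this, addOrderOf_neg]
      exact hl.2
  rw [Finset.sum_congr rfl fun a _ => h2 a]
  have h3 : ∀ a ∈ (Finset.univ : Finset (ZMod n)), addOrderOf a ∈ n.divisors := by
    intro a _
    rw [Nat.mem_divisors]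
    refine ⟨?_, NeZero.ne n⟩
    have := addOrderOf_dvd_card (x := a)
    rwa [ZMod.card] at this
  rw [← Finset.sum_fiberwise_of_maps_to h3]
  push_cast
  refine Finset.sum_congr rfl fun s hs => ?_
  rw [← hRAM n x s (Nat.dvd_of_mem_divisors hs), Finset.sum_mul]
  refine Finset.sum_congr rfl fun a ha => ?_
  rw [(Finset.mem_filter.1 ha).2]

lemma top (n k g : ℕ) (hn : 0 < n) (hk : k < n) :
    ∑ s ∈ n.divisors, rg g s * Bs n k s n = rg g n * (Ph n k : ℤ) := by
  rw [Finset.sum_eq_single n]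
  · congr 1
    unfold Bs Ph
    rw [Finset.card_filter]
    push_cast
    refine Finset.sum_congr rfl fun j hj => ?_
    rw [Finset.mem_Icc] at hj
    have e1 : (k - j) / n = 0 := Nat.div_eq_of_lt (by omega)
    have e2 : n / n = 1 := Nat.div_self hn
    rw [e1, e2]
    have e3 : (n / Nat.gcd n j = n) ↔ Nat.Coprime j n := by
      have hpos : 0 < Nat.gcd n j := Nat.gcd_pos_of_pos_left _ hn
      rw [Nat.coprime_comm, Nat.coprime_iff_gcd_eq_one]
      constructor
      · intro h
        by_contra h1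
        have : n / Nat.gcd n j < n := Nat.div_lt_self hn (by omega)
        omega
      · intro h
        rw [h, Nat.div_one]
    simp only [e3]
    simp [ep]
  · intro s hs hsn
    have : Bs n k s n = 0 := by
      unfold Bs
      refine Finset.sum_eq_zero fun j _ => ?_
      rw [if_neg]
      intro h
      have h1 : s / Nat.gcd s j ≤ s := Nat.div_le_self _ _
      have h2 : s ≤ n := Nat.divisor_le hs
      omega
    rw [this, mul_zero]
  · intro h
    exact absurd (Nat.mem_divisors.2 ⟨dvd_rfl, by omega⟩) h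

/-- **Packet AVG**. -/
theorem avg (hID : G_ID) (hEV : G_EV) (hRAM : G_RAM) : G_AVG := by
  intro n _ k x hn hk hD u hu hu1
  obtain ⟨K, hK⟩ := Gd_const hID n k x hD
  have h1 := key hEV hRAM n k x K hK u hu hu1
  have h2 := key hEV hRAM n k x K hK n dvd_rfl (by omega)
  rw [top n k _ (by omega) hk] at h2
  have hs : ((-1 : ℂ) ^ (k - 1)) * ((-1 : ℂ) ^ (k - 1)) = 1 := by
    rw [← mul_pow]; simp
  have h3 : ((((Nat.totient n : ℤ) * ∑ s ∈ n.divisors, rg (Nat.gcd x.val n) s * Bs n k s u : ℤ)) : ℂ)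
      = (((Nat.totient u : ℤ) * (rg (Nat.gcd x.val n) n * (Ph n k : ℤ)) : ℤ) : ℂ) := by
    rw [Int.cast_mul, Int.cast_mul, Int.cast_natCast, Int.cast_natCast]
    generalize ((∑ s ∈ n.divisors, rg (Nat.gcd x.val n) s * Bs n k s u : ℤ) : ℂ) = S at *
    generalize ((rg (Nat.gcd x.val n) n * (Ph n k : ℤ) : ℤ) : ℂ) = P at *
    generalize ((-1 : ℂ) ^ (k - 1)) = e at *
    linear_combination (-(S * (Nat.totient n : ℂ)) + (Nat.totient u : ℂ) * P) * hs
      - e * (Nat.totient n : ℂ) * h1 + e * (Nat.totient u : ℂ) * h2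
  exact_mod_cast h3

end Pool.Agent.Helper31.SD
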