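import Pool.Agent.Helper16.SD.GoalsS
import Pool.Agent.Helper12.SL.GA7

/-!
# SD-A_LFT
-/

set_option autoImplicit false

namespace Pool.Agent.Helper31.SD.A_LFT

open NumberField

theorem lift_ex (K F A : Type) [Field K] [Field F] [Algebra K F] [Algebra.IsAlgebraic K F]
    [Field A] [IsAlgClosed A] (σ : K →+* A) : ∃ s : F →+* A, s.comp (algebraMap K F) = σ := by
  letI := σ.toAlgebra
  exact ⟨((IsAlgClosed.lift : F →ₐ[K] A) : F →+* A), (IsAlgClosed.lift : F →ₐ[K] A).comp_algebraMap⟩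

theorem t : Pool.Agent.Helper16.SD.A_LFT := by
  intro K _ _ F _ _ _ _
  haveI : FiniteDimensional K F := Module.Finite.of_restrictScalars_finite ℚ K F
  choose s hs using fun σ : K →+* AlgebraicClosure K ↦
    lift_ex K F (AlgebraicClosure K) σ
  have hex : ∀ (γ : AlgebraicClosure K ≃+* AlgebraicClosure K) (σ : K →+* AlgebraicClosure K),
      ∃ h : F ≃ₐ[K] F, ∀ x : F, γ (s σ x) = s (γ • σ) (h x) := by
    intro γ σ
    obtain ⟨h, hh⟩ := Pool.Agent.Helper17.SL.PkGA7.thm K F (AlgebraicClosure K) (s (γ • σ))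
      ((γ : AlgebraicClosure K →+* AlgebraicClosure K).comp (s σ)) (by
        rw [hs (γ • σ), RingHom.comp_assoc, hs σ]
        rfl)
    exact ⟨h, fun x ↦ RingHom.congr_fun hh x⟩
  choose h hh using hex
  refine ⟨s, h, hs, hh, ?_⟩
  intro γ δ σ
  ext x
  apply (s (γ • δ • σ)).injective
  have h1 := hh (γ * δ) σ x
  have h2 := hh δ σ x
  have h3 := hh γ (δ • σ) (h δ σ x)
  rw [mul_smul] at h1
  rw [← h1]
  show γ (δ (s σ x)) = s (γ • δ • σ) (h γ (δ • σ) (h δ σ x))
  rw [h2, h3]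

end Pool.Agent.Helper31.SD.A_LFT
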